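import Pool.Agent.Lib.MP_288534_co.All

/-!
# MP_288534_co: sigma-morphic tiles of genus zero exist in every dimension at least three

The definitions `IsTile`, `IsTiling`, `Congr`, `tilingSetoid`, `IsMorphic` are in
`Pool.Agent.Lib.MP_288534_co.Problem`.
-/

set_option autoImplicit false

namespace Pool.Agent.Results.MP_288534_co.SigmaMorphicBall

open Pool.Agent.SM

/-- In every dimension `d ≥ 3` there is a tile homeomorphic to the closed ball for which the
congruence classes of tilings form a set of cardinality exactly `ℵ₀`. -/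
theorem result : ∀ d : ℕ, 3 ≤ d → ∃ T : Set (EuclideanSpace ℝ (Fin d)), IsTile T ∧
    Nonempty (↥T ≃ₜ ↥(Metric.closedBall (0 : EuclideanSpace ℝ (Fin d)) 1)) ∧
    IsMorphic T Cardinal.aleph0 :=
  w_Z3

end Pool.Agent.Results.MP_288534_co.SigmaMorphicBall
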